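import Pool.Agent.Helper25_CON.PDLem

/-!
Squad CON: G_FLP and E_ORT
-/

noncomputable section

namespace Pool.Agent.CON.H6

open Pool.Agent.CON

variable {M : Type} [AddCommGroup M] {b : M → M → ℤ}

lemma neg_mem {C : Set M} {s : ℤ} (hC : Irr b C s) {α : M} (hα : α ∈ C) : -α ∈ C := by
  have h := hC.refl α hα α hα 2 (hC.norm α hα)
  have h2 : α - (2 : ℤ) • α = -α := by rw [two_smul]; abel
  rwa [h2] at h

/-- two roots of equal length which are not proportional -/
lemma prod_cases (hb : PD b) {C : Set M} {s : ℤ} (hC : Irr b C s) {α β : M} (hα : α ∈ C)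
    (hβ : β ∈ C) (h1 : α ≠ β) (h2 : α ≠ -β) : b α β = 0 ∨ b α β = s ∨ b α β = -s := by
  have hs := hC.pos
  have hna := hC.norm α hα
  have hnb := hC.norm β hβ
  obtain ⟨k, hk⟩ := hC.dvd α hα β hβ
  have e1 : b (α - β) (α - β) = 4 * s - 2 * b α β := by
    rw [hb.sub_left, hb.sub_right, hb.sub_right, hb.symm β α, hna, hnb]; ring
  have e2 : b (α + β) (α + β) = 4 * s + 2 * b α β := by
    rw [hb.add_left, hb.add_right, hb.add_right, hb.symm β α, hna, hnb]; ring
  have p1 := hb.pos (α - β) (sub_ne_zero.mpr h1)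
  have p2 := hb.pos (α + β) (fun h => h2 (eq_neg_of_add_eq_zero_left h))
  rw [e1] at p1
  rw [e2] at p2
  rw [hk] at p1 p2 ⊢
  have k1 : k < 2 := by nlinarith
  have k2 : -2 < k := by nlinarith
  have k3 : k = 0 ∨ k = 1 ∨ k = -1 := by omega
  rcases k3 with rfl | rfl | rfl
  · left; ring
  · right; left; ring
  · right; right; ring

theorem gFLP : G_FLP := by
  intro M _ b C s k F α ε i j hb hC hF hα hε hαF hij
  obtain ⟨hF1, hF2, hF3⟩ := hF
  obtain ⟨w, hw, hw2⟩ : ∃ w ∈ C, (2 : ℤ) • w = ε i • F i + ε j • F j := by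
    obtain ⟨⟨w1, hw1, e1⟩, w2, hw2, e2⟩ := hF3 i j hij
    rcases hε i with hi | hi <;> rcases hε j with hj | hj <;> rw [hi, hj]
    · exact ⟨w1, hw1, by rw [e1, one_smul, one_smul]⟩
    · exact ⟨w2, hw2, by rw [e2, one_smul, neg_one_smul]; abel⟩
    · exact ⟨-w2, neg_mem hC hw2, by rw [smul_neg, e2, one_smul, neg_one_smul]; abel⟩
    · exact ⟨-w1, neg_mem hC hw1, by rw [smul_neg, e1, neg_one_smul, neg_one_smul]; abel⟩
  have hsq : ∀ l, ε l * ε l = 1 := by
    intro l
    rcases hε l with h | h <;> rw [h] <;> norm_num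
  have hwα : b w α = 1 * s := by
    have h1 : b α ((2 : ℤ) • w) = ε i * (ε i * s) + ε j * (ε j * s) := by
      rw [hw2, hb.add_right, hb.zsmul_right, hb.zsmul_right, hαF, hαF]
    rw [hb.zsmul_right, ← mul_assoc, ← mul_assoc, hsq, hsq] at h1
    rw [hb.symm]
    linarith
  have hm := hC.refl w hw α hα 1 hwα
  rw [one_smul] at hm
  have h2a : (2 : ℤ) • (α - w) = (2 : ℤ) • α - ε i • F i - ε j • F j := by
    rw [smul_sub, hw2]; abel
  refine ⟨α - w, hm, h2a, fun l => ?_⟩
  have h3 : b ((2 : ℤ) • (α - w)) (F l) =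
      2 * (ε l * s) - ε i * b (F i) (F l) - ε j * b (F j) (F l) := by
    rw [h2a, hb.sub_left, hb.sub_left, hb.zsmul_left, hb.zsmul_left, hb.zsmul_left, hαF]
  rw [hb.zsmul_left] at h3
  by_cases hli : l = i
  · subst hli
    rw [if_pos (Or.inl rfl)]
    rw [hF1, hF2 j l (Ne.symm hij)] at h3
    linarith
  · by_cases hlj : l = j
    · subst hlj
      rw [if_pos (Or.inr rfl)]
      rw [hF1, hF2 i l hij] at h3
      linarith
    · rw [if_neg (by rintro (h | h); exacts [hli h, hlj h])]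
      rw [hF2 i l (Ne.symm hli), hF2 j l (Ne.symm hlj)] at h3
      linarith

theorem eORT (_ : E_NON) : E_ORT := by
  intro M _ b C s hb hC hR
  by_contra hcon
  push Not at hcon
  obtain ⟨c, hc, hli⟩ := hR
  rw [Fintype.linearIndependent_iff] at hli
  have hind : ∀ z0 z1 z2 : ℤ, z0 • c 0 + z1 • c 1 + z2 • c 2 = 0 → z0 = 0 ∧ z1 = 0 ∧ z2 = 0 := by
    intro z0 z1 z2 h
    have h1 := hli ![z0, z1, z2] (by rw [Fin.sum_univ_three]; simpa using h)
    exact ⟨by simpa using h1 0, by simpa using h1 1, by simpa using h1 2⟩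
  -- a sign for each vector
  have sgn : ∀ i : Fin 3, (i : ℕ) ≠ 0 → ∃ e : ℤ, (e = 1 ∨ e = -1) ∧ e • c i ∈ C ∧ b (c 0) (e • c i) = s := by
    intro i hi
    have hne1 : c 0 ≠ c i := by
      intro h
      fin_cases i
      · exact hi rfl
      · have := hind 1 (-1) 0 (by simp only [one_smul, neg_smul, zero_smul]; rw [h]; simp)
        omega
      · have := hind 1 0 (-1) (by simp only [one_smul, neg_smul, zero_smul]; rw [h]; simp)
        omega
    have hne2 : c 0 ≠ - c i := by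
      intro h
      fin_cases i
      · exact hi rfl
      · have := hind 1 1 0 (by simp only [one_smul, zero_smul]; rw [h]; simp)
        omega
      · have := hind 1 0 1 (by simp only [one_smul, zero_smul]; rw [h]; simp)
        omega
    rcases prod_cases hb hC (hc 0) (hc i) hne1 hne2 with h | h | h
    · exact absurd h (hcon _ (hc 0) _ (hc i))
    · exact ⟨1, Or.inl rfl, by rw [one_smul]; exact hc i, by rw [one_smul]; exact h⟩
    · refine ⟨-1, Or.inr rfl, by rw [neg_one_smul]; exact neg_mem hC (hc i), ?_⟩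
      rw [neg_one_smul, hb.neg_right, h, neg_neg]
  obtain ⟨e1, he1, hm1, hp1⟩ := sgn 1 (by decide)
  obtain ⟨e2, he2, hm2, hp2⟩ := sgn 2 (by decide)
  have hne1 : e1 • c 1 ≠ e2 • c 2 := by
    intro h
    have := hind 0 e1 (-e2) (by rw [zero_smul, neg_smul, h]; simp)
    omega
  have hne2 : e1 • c 1 ≠ -(e2 • c 2) := by
    intro h
    have := hind 0 e1 e2 (by rw [zero_smul, h]; simp)
    omega
  rcases prod_cases hb hC hm1 hm2 hne1 hne2 with h | h | h
  · exact hcon _ hm1 _ hm2 h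
  · have h1 := hC.refl _ hm2 _ hm1 1 (by rw [hb.symm, h, one_mul])
    rw [one_smul] at h1
    refine hcon _ (hc 0) _ h1 ?_
    rw [hb.sub_right, hp1, hp2, sub_self]
  · have h1 := hC.refl _ hm1 _ (hc 0) 1 (by rw [hb.symm, hp1, one_mul])
    rw [one_smul] at h1
    have h2 : b (c 0 - e1 • c 1 - e2 • c 2) (c 0 - e1 • c 1 - e2 • c 2) = 0 := by
      rw [hb.sub_left, hb.sub_right _ _ (e2 • c 2), hb.sub_right (e2 • c 2)]
      rw [hC.norm _ h1, hC.norm _ hm2, hb.symm (e2 • c 2), hb.sub_left, hp2, h]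
      ring
    have h3 := hb.eq_zero h2.le
    have := hind 1 (-e1) (-e2) (by rw [one_smul, neg_smul, neg_smul, ← sub_eq_add_neg, ← sub_eq_add_neg]; exact h3)
    omega

end Pool.Agent.CON.H6

end
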